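import Pool.Agent.Work.MP_2738db_nt_Y.Interface3

/-!
Theorem Y (MP_2738db_nt), block LTR: lifting the exponent for a ratio (helper6).
-/

set_option autoImplicit false

namespace Pool.Agent.Work.MP_2738db_nt_Y

namespace helper6

/-- from the lifting the exponent identity to the bound -/
lemma ltr_aux (r j V : ℕ) (hr : r.Prime) (hj : 1 ≤ j) (x y : ℤ) (hne : x ≠ y)
    (hE : emultiplicity (r : ℤ) (x ^ j - y ^ j) =
      emultiplicity (r : ℤ) (x - y) + emultiplicity r j)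
    (hV : (r : ℤ) ^ V ∣ x ^ j - y ^ j) :
    ∃ V' : ℕ, (r : ℤ) ^ V' ∣ x - y ∧ r ^ V ≤ j * r ^ V' := by
  have hf1 : FiniteMultiplicity (r : ℤ) (x - y) := by
    rw [Int.finiteMultiplicity_iff]
    refine ⟨?_, sub_ne_zero.2 hne⟩
    rw [Int.natAbs_natCast]
    exact hr.ne_one
  have hf2 : FiniteMultiplicity r j := Nat.finiteMultiplicity_iff.mpr ⟨hr.ne_one, hj⟩
  refine ⟨multiplicity (r : ℤ) (x - y), pow_multiplicity_dvd _ _, ?_⟩
  have h1 : (V : ℕ∞) ≤ emultiplicity (r : ℤ) (x ^ j - y ^ j) := le_emultiplicity_of_pow_dvd hV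
  rw [hE, hf1.emultiplicity_eq_multiplicity, hf2.emultiplicity_eq_multiplicity] at h1
  have h2 : V ≤ multiplicity (r : ℤ) (x - y) + multiplicity r j := by exact_mod_cast h1
  have h3 : r ^ (multiplicity r j) ≤ j := Nat.le_of_dvd hj (pow_multiplicity_dvd _ _)
  calc r ^ V ≤ r ^ (multiplicity (r : ℤ) (x - y) + multiplicity r j) :=
        Nat.pow_le_pow_right hr.pos h2
    _ = r ^ (multiplicity r j) * r ^ (multiplicity (r : ℤ) (x - y)) := by
        rw [pow_add, mul_comm]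
    _ ≤ j * r ^ (multiplicity (r : ℤ) (x - y)) := Nat.mul_le_mul_right _ h3

/-- **LTR** -/
theorem ltr : Stmt_Ltr := by
  intro r X₁ X₂ j V hr h1 h2 hj hV
  by_cases hX : X₁ = X₂
  · refine ⟨V, ?_, Nat.le_mul_of_pos_left _ hj⟩
    rw [hX, sub_self]
    exact dvd_zero _
  have hr1 : 1 ≤ r - 1 := by have := hr.two_le; omega
  set x : ℤ := (X₁ : ℤ) ^ (2 * (r - 1)) with hx
  set y : ℤ := (X₂ : ℤ) ^ (2 * (r - 1)) with hy
  have hne : x ≠ y := by
    intro h
    apply hX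
    rw [hx, hy] at h
    have h3 : X₁ ^ (2 * (r - 1)) = X₂ ^ (2 * (r - 1)) := by exact_mod_cast h
    exact Nat.pow_left_injective (n := 2 * (r - 1)) (by omega) h3
  have hdiv : (r : ℤ) ^ V ∣ x ^ j - y ^ j := by
    refine hV.trans ?_
    have h4 : x ^ j - y ^ j = ((X₁ : ℤ) ^ (2 * j)) ^ (r - 1) - ((X₂ : ℤ) ^ (2 * j)) ^ (r - 1) := by
      rw [hx, hy, ← pow_mul, ← pow_mul, ← pow_mul, ← pow_mul]
      ring_nf
    rw [h4]
    exact sub_dvd_pow_sub_pow _ _ _
  have hri : Prime (r : ℤ) := Nat.prime_iff_prime_int.1 hr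
  have hx0 : ¬ (r : ℤ) ∣ x := by
    intro h
    exact h1 (Int.natCast_dvd_natCast.1 (hri.dvd_of_dvd_pow h))
  apply ltr_aux r j V hr hj x y hne _ hdiv
  rcases hr.eq_two_or_odd' with hr2 | hodd
  · subst hr2
    have hX1 : Odd (X₁ : ℤ) := by
      rw [← Int.not_even_iff_odd, even_iff_two_dvd]
      intro h
      exact h1 (by exact_mod_cast h)
    have hX2 : Odd (X₂ : ℤ) := by
      rw [← Int.not_even_iff_odd, even_iff_two_dvd]
      intro h
      exact h2 (by exact_mod_cast h)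
    have h4 : (4 : ℤ) ∣ x - y := by
      have h5 := Int.sq_mod_four_eq_one_of_odd hX1
      have h6 := Int.sq_mod_four_eq_one_of_odd hX2
      have h7 : x = (X₁ : ℤ) ^ 2 := by rw [hx]
      have h8 : y = (X₂ : ℤ) ^ 2 := by rw [hy]
      rw [h7, h8]
      omega
    have h9 := Int.two_pow_sub_pow' j h4 (by exact_mod_cast hx0)
    have h10 : emultiplicity (2 : ℤ) (j : ℤ) = emultiplicity 2 j := by
      exact_mod_cast Int.natCast_emultiplicity 2 j
    rw [h10] at h9
    exact_mod_cast h9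
  · have hfer : ∀ X : ℕ, ¬ r ∣ X → (X : ℤ) ^ (2 * (r - 1)) ≡ 1 [ZMOD r] := by
      intro X hX
      have hc : IsCoprime (X : ℤ) (r : ℤ) := by
        rw [Nat.isCoprime_iff_coprime]
        exact ((Nat.Prime.coprime_iff_not_dvd hr).2 hX).symm
      have h5 := Int.ModEq.pow_card_sub_one_eq_one hr hc
      have h6 := h5.pow 2
      rw [one_pow, ← pow_mul, mul_comm (r - 1) 2] at h6
      exact h6
    have hxy : (r : ℤ) ∣ x - y := by
      have h5 := (hfer X₁ h1).trans (hfer X₂ h2).symm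
      exact h5.symm.dvd
    exact Int.emultiplicity_pow_sub_pow hr hodd hxy hx0 j

end helper6

end Pool.Agent.Work.MP_2738db_nt_Y
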